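import Pool.Agent.N879.GD.Stm

/-!
# Project GZ, package OFI: the off-diagonal part of the approximate functional equation
-/

set_option autoImplicit false

namespace Pool.Agent.U301.GZ

open Complex Filter Topology MeasureTheory Set
open Pool.Agent.Y969.GP (V lam PS co ht)
open Pool.Agent.N879.GD

noncomputable section

/-- the kernel -/
def Kn (σ y : ℝ) : ℂ :=
  cexp (-((σ + I * y) * (Real.log (2 * Real.pi) : ℝ))) * cexp ((σ + I * y) ^ 2) / (σ + I * y)

/-- the real weight -/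
def wb (b : ℕ) (T u : ℝ) : ℝ := (u / T) ^ b * Real.exp (-(u / T)) / u

lemma s_ne {σ : ℝ} (hσ : 0 < σ) (y : ℝ) : (σ : ℂ) + I * y ≠ 0 := by
  intro h
  have := congrArg Complex.re h
  simp at this
  linarith

lemma Kn_cont {σ : ℝ} (hσ : 0 < σ) : Continuous (Kn σ) := by
  unfold Kn
  refine Continuous.div ?_ ?_ (s_ne hσ)
  · fun_prop
  · fun_prop

lemma Kn_le {σ : ℝ} (hσ : 0 < σ) (y : ℝ) :
    ‖Kn σ y‖ ≤ Real.exp (σ ^ 2) / σ * Real.exp (-1 * y ^ 2) := by
  unfold Kn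
  rw [norm_div, norm_mul, Complex.norm_exp, Complex.norm_exp]
  have e1 : (-(((σ : ℂ) + I * y) * (Real.log (2 * Real.pi) : ℝ))).re =
      -(σ * Real.log (2 * Real.pi)) := by
    rw [Complex.neg_re, Complex.re_mul_ofReal]
    simp
  have e2 : (((σ : ℂ) + I * y) ^ 2).re = σ ^ 2 + -1 * y ^ 2 := by
    simp [pow_two]
    ring
  have h3 : σ ≤ ‖(σ : ℂ) + I * y‖ := by
    have := Complex.abs_re_le_norm ((σ : ℂ) + I * y)
    simp at this
    exact (le_abs_self σ).trans this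
  have h4 : Real.exp (-(σ * Real.log (2 * Real.pi))) ≤ 1 := by
    rw [Real.exp_le_one_iff]
    have : 0 ≤ Real.log (2 * Real.pi) := Real.log_nonneg (by
      have := Real.two_le_pi
      linarith)
    have := mul_nonneg hσ.le this
    linarith
  rw [e1, e2, Real.exp_add]
  calc Real.exp (-(σ * Real.log (2 * Real.pi))) * (Real.exp (σ ^ 2) * Real.exp (-1 * y ^ 2)) /
        ‖(σ : ℂ) + I * y‖ ≤ 1 * (Real.exp (σ ^ 2) * Real.exp (-1 * y ^ 2)) / σ := by
        gcongr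
    _ = _ := by ring

lemma Kn_int {σ : ℝ} (hσ : 0 < σ) : Integrable (Kn σ) := by
  refine Integrable.mono' ((integrable_exp_neg_mul_sq one_pos).const_mul (Real.exp (σ ^ 2) / σ))
    (Kn_cont hσ).aestronglyMeasurable (ae_of_all _ fun y => ?_)
  exact Kn_le hσ y

lemma bd_int {σ : ℝ} : Integrable fun y : ℝ =>
    Real.exp (σ ^ 2) / σ * Real.exp (-1 * y ^ 2) * (1 + |y|) := by
  have h1 := integrable_exp_neg_mul_sq (b := 1) one_pos
  have h2 := (integrable_mul_exp_neg_mul_sq (b := 1) one_pos).abs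
  refine ((h1.add h2).const_mul (Real.exp (σ ^ 2) / σ)).congr (ae_of_all _ fun y => ?_)
  simp only [Pi.add_apply, abs_mul, Real.abs_exp]
  ring

lemma wb_int {b : ℕ} (hb : 1 ≤ b) {T : ℝ} (hT : 0 < T) : IntegrableOn (wb b T) (Ioi 0) := by
  have hb' : (1 : ℝ) ≤ b := by exact_mod_cast hb
  have h := integrableOn_rpow_mul_exp_neg_mul_rpow (p := 1) (s := (b : ℝ) - 1) (b := 1 / T)
    (by linarith) one_pos (by positivity)
  refine IntegrableOn.congr_fun (h.const_mul ((T ^ b)⁻¹)) (fun u hu => ?_) measurableSet_Ioi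
  have hu : 0 < u := hu
  show (T ^ b)⁻¹ * (u ^ ((b : ℝ) - 1) * Real.exp (-(1 / T) * u ^ (1 : ℝ))) = wb b T u
  unfold wb
  rw [Real.rpow_sub_one hu.ne', Real.rpow_natCast, Real.rpow_one, div_pow]
  have : -(1 / T) * u = -(u / T) := by ring
  rw [this]
  field_simp

/-- the integrand in `y` and `u` -/
def Fp (σ : ℝ) (b : ℕ) (T τ : ℝ) (p : ℕ × ℕ) (y u : ℝ) : ℂ :=
  Kn σ y * ((((√(ht p))⁻¹ : ℝ) : ℂ) * cexp (-((σ + I * y) * (Real.log (ht p) : ℝ)))) *
    ((wb b T u : ℂ) * cexp (I * ((u * lam p - (τ - y) * Real.log u : ℝ) : ℂ)))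

lemma Fp_int {σ : ℝ} (hσ : 0 < σ) {b : ℕ} (hb : 1 ≤ b) {T : ℝ} (hT : 0 < T) (τ : ℝ) (p : ℕ × ℕ) :
    Integrable (Function.uncurry (Fp σ b T τ p)) (volume.prod (volume.restrict (Ioi (0 : ℝ)))) := by
  have hA : Integrable (fun y : ℝ => ‖Kn σ y‖ * ((√(ht p))⁻¹ * Real.exp (-(σ * Real.log (ht p))))) :=
    (Kn_int hσ).norm.mul_const _
  have hB : Integrable (fun u : ℝ => ‖wb b T u‖) (volume.restrict (Ioi (0 : ℝ))) :=
    (wb_int hb hT).norm
  refine Integrable.mono' (hA.mul_prod hB) ?_ (ae_of_all _ fun z => ?_)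
  · have hK : Measurable (Kn σ) := (Kn_cont hσ).measurable
    have hw : Measurable (wb b T) := by unfold wb; fun_prop
    refine Measurable.aestronglyMeasurable ?_
    unfold Function.uncurry Fp
    have h1 : Measurable fun a : ℝ × ℝ => Kn σ a.1 := hK.comp measurable_fst
    have h2 : Measurable fun a : ℝ × ℝ => ((wb b T a.2 : ℝ) : ℂ) :=
      measurable_ofReal.comp (hw.comp measurable_snd)
    have h3 : Measurable fun a : ℝ × ℝ => cexp (-(((σ : ℂ) + I * a.1) * (Real.log (ht p) : ℝ))) := by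
      fun_prop
    have h4 : Measurable fun a : ℝ × ℝ =>
        cexp (I * ((a.2 * lam p - (τ - a.1) * Real.log a.2 : ℝ) : ℂ)) := by
      fun_prop
    exact (h1.mul (h3.const_mul _)).mul (h2.mul h4)
  · obtain ⟨y, u⟩ := z
    show ‖Fp σ b T τ p y u‖ ≤ _
    unfold Fp
    have e1 : (-(((σ : ℂ) + I * y) * (Real.log (ht p) : ℝ))).re = -(σ * Real.log (ht p)) := by
      rw [Complex.neg_re, Complex.re_mul_ofReal]
      simp
    rw [norm_mul, norm_mul, norm_mul, norm_mul, Complex.norm_exp_I_mul_ofReal, Complex.norm_exp, e1,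
      Complex.norm_real, Complex.norm_real, mul_one, Real.norm_of_nonneg (by positivity)]

lemma Fp_inner {σ : ℝ} {b : ℕ} {T τ : ℝ} (p : ℕ × ℕ) (y : ℝ) :
    ∫ u in Ioi (0 : ℝ), Fp σ b T τ p y u = Kn σ y * bt σ b T y (τ - y) p.1 p.2 := by
  unfold Fp
  rw [integral_const_mul]
  unfold bt GG wb ht lam
  ring

/-- the integral over `y` -/
lemma Fp_outer {σ : ℝ} (hσ : 0 < σ) {b : ℕ} {T τ : ℝ} (hT : 0 < T) (p : ℕ × ℕ) (hp : 0 < ht p)
    {u : ℝ} (hu : 0 < u)
    (hVu : ((V (2 * Real.pi * ht p / u) : ℝ) : ℂ) = ((2 * Real.pi : ℝ) : ℂ)⁻¹ *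
      ∫ y : ℝ, cexp (-((σ + I * y) * (Real.log (2 * Real.pi * ht p / u) : ℝ))) *
        cexp ((σ + I * y) ^ 2) / (σ + I * y)) :
    (W (b - σ) T u : ℂ) * ((co p u : ℂ) * cexp (I * ((u * lam p : ℝ) : ℂ))) *
      cexp (-(I * ((τ * Real.log u : ℝ) : ℂ))) =
    ((T ^ σ / Real.pi : ℝ) : ℂ) * ∫ y : ℝ, Fp σ b T τ p y u := by
  have hW : W (b - σ) T u * Real.exp (σ * Real.log u) = T ^ σ * wb b T u := by
    unfold W wb
    have h1 : (u / T) ^ ((b : ℝ) - σ) = (u / T) ^ b / ((u / T) ^ σ) := by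
      rw [Real.rpow_sub (by positivity), Real.rpow_natCast]
    have h2 : (u / T) ^ σ = u ^ σ / T ^ σ := Real.div_rpow hu.le hT.le _
    have h3 : Real.exp (σ * Real.log u) = u ^ σ := by
      rw [Real.rpow_def_of_pos hu, mul_comm]
    rw [h1, h2, h3]
    have h4 : 0 < u ^ σ := Real.rpow_pos_of_pos hu _
    have h5 : 0 < T ^ σ := Real.rpow_pos_of_pos hT _
    field_simp
  have hWc : (W (b - σ) T u : ℂ) * cexp ((σ * Real.log u : ℝ) : ℂ) =
      ((T ^ σ : ℝ) : ℂ) * (wb b T u : ℂ) := by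
    rw [← Complex.ofReal_exp, ← Complex.ofReal_mul, hW, Complex.ofReal_mul]
  have hlog : Real.log (2 * Real.pi * ht p / u) = Real.log (2 * Real.pi) + Real.log (ht p) -
      Real.log u := by
    rw [Real.log_div (by positivity) hu.ne', Real.log_mul (by positivity) hp.ne']
  have hco : ((co p u : ℝ) : ℂ) = 2 * (((√(ht p))⁻¹ : ℝ) : ℂ) * ((V (2 * Real.pi * ht p / u) : ℝ) : ℂ) := by
    unfold co
    push_cast
    ring
  have hl : ∀ J : ℂ, (W (b - σ) T u : ℂ) * (2 * (((√(ht p))⁻¹ : ℝ) : ℂ) * J *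
      cexp (I * ((u * lam p : ℝ) : ℂ))) * cexp (-(I * ((τ * Real.log u : ℝ) : ℂ))) =
      ((W (b - σ) T u : ℂ) * (2 * (((√(ht p))⁻¹ : ℝ) : ℂ) *
      cexp (I * ((u * lam p : ℝ) : ℂ))) * cexp (-(I * ((τ * Real.log u : ℝ) : ℂ)))) * J := fun J => by
    ring
  rw [hco, hl, hVu, ← integral_const_mul, ← integral_const_mul, ← integral_const_mul]
  congr 1
  funext y
  have hs := s_ne hσ y
  have e1 : cexp (-(((σ : ℂ) + I * y) * (Real.log (2 * Real.pi * ht p / u) : ℝ))) =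
      cexp (-(((σ : ℂ) + I * y) * (Real.log (2 * Real.pi) : ℝ))) *
      cexp (-(((σ : ℂ) + I * y) * (Real.log (ht p) : ℝ))) * cexp ((σ * Real.log u : ℝ) : ℂ) *
      cexp (I * ((y * Real.log u : ℝ) : ℂ)) := by
    rw [hlog, ← Complex.exp_add, ← Complex.exp_add, ← Complex.exp_add]
    congr 1
    push_cast
    ring
  have e2 : cexp (I * ((u * lam p - (τ - y) * Real.log u : ℝ) : ℂ)) =
      cexp (I * ((u * lam p : ℝ) : ℂ)) * cexp (-(I * ((τ * Real.log u : ℝ) : ℂ))) *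
      cexp (I * ((y * Real.log u : ℝ) : ℂ)) := by
    rw [← Complex.exp_add, ← Complex.exp_add]
    congr 1
    push_cast
    ring
  unfold Fp Kn
  rw [e1, e2]
  have hpi : ((Real.pi : ℝ) : ℂ) ≠ 0 := by exact_mod_cast Real.pi_ne_zero
  have e3 : ((T ^ σ / Real.pi : ℝ) : ℂ) = ((T ^ σ : ℝ) : ℂ) / ((Real.pi : ℝ) : ℂ) := by push_cast; ring
  have e4 : ((2 * Real.pi : ℝ) : ℂ) = 2 * ((Real.pi : ℝ) : ℂ) := by push_cast; ring
  rw [e3, e4]
  set a1 := cexp (-(((σ : ℂ) + I * y) * (Real.log (2 * Real.pi) : ℝ)))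
  set a2 := cexp (-(((σ : ℂ) + I * y) * (Real.log (ht p) : ℝ)))
  set a3 := cexp ((σ * Real.log u : ℝ) : ℂ)
  set a4 := cexp (I * ((y * Real.log u : ℝ) : ℂ))
  set a5 := cexp (I * ((u * lam p : ℝ) : ℂ))
  set a6 := cexp (-(I * ((τ * Real.log u : ℝ) : ℂ)))
  set a7 := cexp (((σ : ℂ) + I * y) ^ 2)
  set pc : ℂ := ((Real.pi : ℝ) : ℂ)
  set ss : ℂ := (σ : ℂ) + I * y
  calc (W (b - σ) T u : ℂ) * (2 * (((√(ht p))⁻¹ : ℝ) : ℂ) * a5) * a6 *
        ((2 * pc)⁻¹ * (a1 * a2 * a3 * a4 * a7 / ss))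
      = ((W (b - σ) T u : ℂ) * a3) * ((((√(ht p))⁻¹ : ℝ) : ℂ) * a5 * a6 * (pc⁻¹ * (a1 * a2 * a4 * a7 / ss))) := by
        rw [mul_inv]
        ring
    _ = _ := by
        rw [hWc]
        field_simp

theorem t_OFI (h1 : S_SUM) (h2 : Pool.Agent.Y969.GP.S_V) : S_OFI := by
  obtain ⟨ε, δ, b, hε, hε4, hδ, hδ1, hb, C, T₀, hC, hT₀, h⟩ := h1
  obtain ⟨-, -, -, -, -, -, hV⟩ := h2
  have hb' : (4 : ℝ) ≤ b := by exact_mod_cast hb
  set σ : ℝ := δ / 2 with hσd
  have hσ : 0 < σ := by positivity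
  set J : ℝ := ∫ y : ℝ, Real.exp (σ ^ 2) / σ * Real.exp (-1 * y ^ 2) * (1 + |y|) with hJ
  have hJ0 : 0 ≤ J := integral_nonneg fun y => by positivity
  refine ⟨b - σ, ε, δ / 2, by linarith, hε, hε4, by linarith, by linarith, C * J / Real.pi + 1, T₀,
    by positivity, hT₀, fun T τ X hT hX1 hX2 => ?_⟩
  have hT0 : 0 < T := by linarith
  set S := (PS X).filter (fun p => p.1 ≠ p.2) with hS
  have hmem : ∀ p ∈ S, 0 < ht p := by
    intro p hp
    rw [hS, Finset.mem_filter, PS, Finset.mem_filter, Finset.mem_product, Finset.mem_Icc,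
      Finset.mem_Icc] at hp
    have h3 : 0 < p.1 := hp.1.1.1.1
    have h4 : 0 < p.2 := hp.1.1.2.1
    unfold ht
    positivity
  -- the integral as a double integral
  have hFi : Integrable (Function.uncurry fun y u => ∑ p ∈ S, Fp σ b T τ p y u)
      (volume.prod (volume.restrict (Ioi (0 : ℝ)))) := by
    have := integrable_finsetSum S fun p _ => Fp_int hσ (show 1 ≤ b by omega) hT0 τ p
    refine this.congr (ae_of_all _ fun z => ?_)
    simp [Function.uncurry]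
  have hsw := integral_integral_swap hFi
  have hleft : ∀ u ∈ Ioi (0 : ℝ), (W (b - σ) T u : ℂ) * (∑ p ∈ S,
      (co p u : ℂ) * cexp (I * ((u * lam p : ℝ) : ℂ))) *
      cexp (-(I * ((τ * Real.log u : ℝ) : ℂ))) =
      ((T ^ σ / Real.pi : ℝ) : ℂ) * ∫ y : ℝ, ∑ p ∈ S, Fp σ b T τ p y u := by
    intro u hu
    have hu : 0 < u := hu
    have hi : ∀ p ∈ S, Integrable fun y : ℝ => Fp σ b T τ p y u := by
      intro p _
      have h3 : (fun y : ℝ => Fp σ b T τ p y u) = fun y : ℝ => Kn σ y *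
          ((((√(ht p))⁻¹ : ℝ) : ℂ) * cexp (-((σ + I * y) * (Real.log (ht p) : ℝ))) *
          ((wb b T u : ℂ) * cexp (I * ((u * lam p - (τ - y) * Real.log u : ℝ) : ℂ)))) := by
        funext y
        unfold Fp
        ring
      rw [h3]
      refine (Kn_int hσ).mul_bdd (c := (√(ht p))⁻¹ * Real.exp (-(σ * Real.log (ht p))) * ‖wb b T u‖)
        ?_ (ae_of_all _ fun y => ?_)
      · refine Continuous.aestronglyMeasurable ?_
        fun_prop
      · have e1 : (-(((σ : ℂ) + I * y) * (Real.log (ht p) : ℝ))).re = -(σ * Real.log (ht p)) := by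
          rw [Complex.neg_re, Complex.re_mul_ofReal]
          simp
        rw [norm_mul, norm_mul, norm_mul, Complex.norm_exp_I_mul_ofReal, Complex.norm_exp, e1,
          Complex.norm_real, Complex.norm_real, mul_one, Real.norm_of_nonneg (by positivity)]
    rw [integral_finsetSum S hi, Finset.mul_sum, Finset.mul_sum, Finset.sum_mul]
    refine Finset.sum_congr rfl fun p hp => ?_
    exact Fp_outer hσ hT0 p (hmem p hp) hu (hV σ _ hσ (by have := hmem p hp; positivity))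
  rw [setIntegral_congr_fun measurableSet_Ioi hleft, integral_const_mul, ← hsw, norm_mul,
    Complex.norm_real, Real.norm_of_nonneg (by positivity)]
  -- the inner integral
  have hin : ∀ y : ℝ, ∫ u in Ioi (0 : ℝ), ∑ p ∈ S, Fp σ b T τ p y u =
      Kn σ y * ∑ p ∈ S, bt σ b T y (τ - y) p.1 p.2 := by
    intro y
    rw [integral_finsetSum, Finset.mul_sum]
    · exact Finset.sum_congr rfl fun p _ => Fp_inner p y
    · intro p _
      unfold Fp
      refine Integrable.const_mul ?_ _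
      refine ((wb_int (show 1 ≤ b by omega) hT0).norm).mono' ?_ (ae_of_all _ fun u => ?_)
      · have hw : Measurable (wb b T) := by unfold wb; fun_prop
        refine Measurable.aestronglyMeasurable ?_
        have h3 : Measurable fun u : ℝ => ((wb b T u : ℝ) : ℂ) := measurable_ofReal.comp hw
        have h4 : Measurable fun u : ℝ => cexp (I * ((u * lam p - (τ - y) * Real.log u : ℝ) : ℂ)) := by
          fun_prop
        exact h3.mul h4
      · rw [norm_mul, Complex.norm_exp_I_mul_ofReal, mul_one, Complex.norm_real]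
  simp only [hin]
  have hbd : ‖∫ y : ℝ, Kn σ y * ∑ p ∈ S, bt σ b T y (τ - y) p.1 p.2‖ ≤ C * T ^ (-δ) * J := by
    rw [hJ, ← integral_const_mul]
    refine norm_integral_le_of_norm_le (bd_int.const_mul _) (ae_of_all _ fun y => ?_)
    rw [norm_mul]
    have h3 := h σ T y (τ - y) X hσ.le (by linarith) hT hX1 hX2
    calc ‖Kn σ y‖ * ‖∑ p ∈ S, bt σ b T y (τ - y) p.1 p.2‖ ≤
          (Real.exp (σ ^ 2) / σ * Real.exp (-1 * y ^ 2)) * (C * (1 + |y|) * T ^ (-δ)) :=
          mul_le_mul (Kn_le hσ y) h3 (norm_nonneg _) (by positivity)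
      _ = _ := by ring
  calc T ^ σ / Real.pi * ‖∫ y : ℝ, Kn σ y * ∑ p ∈ S, bt σ b T y (τ - y) p.1 p.2‖ ≤
        T ^ σ / Real.pi * (C * T ^ (-δ) * J) := by gcongr
    _ = C * J / Real.pi * T ^ (-(δ / 2)) := by
        have h3 : T ^ (-(δ / 2)) = T ^ σ * T ^ (-δ) := by
          rw [← Real.rpow_add hT0]
          congr 1
          rw [hσd]
          ring
        rw [h3]
        ring
    _ ≤ (C * J / Real.pi + 1) * T ^ (-(δ / 2)) := by
        have : 0 ≤ T ^ (-(δ / 2)) := Real.rpow_nonneg hT0.le _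
        nlinarith

end

end Pool.Agent.U301.GZ
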